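import Mathlib
import Pool.Agent.Lib.helper17.SkelLA

set_option autoImplicit false
set_option maxHeartbeats 4000000
set_option synthInstance.maxSize 4096

namespace Pool.Agent.Results.MP_7bb607_co.Counter

open ExteriorAlgebra H17Skel

/-- families of coefficients `c σ` with `c σ * b σ = 0` for every `σ` -/
def nullCh {I A : Type} [Ring A] [Algebra ℝ A] (b : I → A) : Submodule ℝ (I → A) where
  carrier := {c | ∀ σ, c σ * b σ = 0}
  add_mem' := by
    intro a b ha hb σ
    simp only [Pi.add_apply, add_mul]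
    rw [ha σ, hb σ, add_zero]
  zero_mem' := by intro σ; simp
  smul_mem' := by
    intro t a ha σ
    simp only [Pi.smul_apply, smul_mul_assoc]
    rw [ha σ, smul_zero]

/-- the boundary on representatives: the coefficient of `τ` is the sum over `x ∉ τ` of
`c (τ ∪ {x}) * e x` -/
def preBd {n : ℕ} {A : Type} [Ring A] [Algebra ℝ A] (e : Fin n → A) :
    (Finset (Fin n) → A) →ₗ[ℝ] (Finset (Fin n) → A) where
  toFun c τ := ∑ x ∈ τᶜ, c (insert x τ) * e x
  map_add' := by
    intro a b; funext τ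
    simp only [Pi.add_apply, add_mul, Finset.sum_add_distrib]
  map_smul' := by
    intro t a; funext τ
    simp only [Pi.smul_apply, smul_mul_assoc, Finset.smul_sum, RingHom.id_apply]

/-- representatives of chains on the faces with `k` vertices: coefficients in `S` on these
faces and `0` elsewhere -/
def preCh {n : ℕ} {A : Type} [Ring A] [Algebra ℝ A] (Δ : Set (Finset (Fin n))) (k : ℕ)
    (S : Submodule ℝ A) : Submodule ℝ (Finset (Fin n) → A) where
  carrier := {c | ∀ σ, (σ ∈ Δ ∧ σ.card = k → c σ ∈ S) ∧ (¬ (σ ∈ Δ ∧ σ.card = k) → c σ = 0)}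
  add_mem' := by
    intro a b ha hb σ
    refine ⟨fun h => Submodule.add_mem _ ((ha σ).1 h) ((hb σ).1 h), fun h => ?_⟩
    simp only [Pi.add_apply]
    rw [(ha σ).2 h, (hb σ).2 h, add_zero]
  zero_mem' := by intro σ; simp
  smul_mem' := by
    intro t a ha σ
    refine ⟨fun h => Submodule.smul_mem _ t ((ha σ).1 h), fun h => ?_⟩
    simp only [Pi.smul_apply]
    rw [(ha σ).2 h, smul_zero]

/-- `dim ((C ∩ ker f) / f C')` -/
noncomputable def hdim {M : Type} [AddCommGroup M] [Module ℝ M] (f : M →ₗ[ℝ] M)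
    (C C' : Submodule ℝ M) : ℕ :=
  Module.finrank ℝ (↥(C ⊓ LinearMap.ker f) ⧸ (C'.map f).submoduleOf (C ⊓ LinearMap.ker f))

/-- `hdim` for the map induced by `f` on `M ⧸ N` and the images of `C`, `C'` in `M ⧸ N` -/
noncomputable def qdim {M : Type} [AddCommGroup M] [Module ℝ M] (N : Submodule ℝ M)
    (f : M →ₗ[ℝ] M) (h : N ≤ N.comap f) (C C' : Submodule ℝ M) : ℕ :=
  hdim (N.mapQ N f h) (C.map N.mkQ) (C'.map N.mkQ)

/-- the wedge of the vectors `u v`, `v ∈ σ`, in increasing order -/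
noncomputable def bar {n : ℕ} {W : Type} [AddCommGroup W] [Module ℝ W] (u : Fin n → W)
    (σ : Finset (Fin n)) : ExteriorAlgebra ℝ W :=
  ((σ.sort (· ≤ ·)).map (fun v => ι ℝ (u v))).prod

theorem perm_zero {W : Type} [AddCommGroup W] [Module ℝ W] {l l' : List W} (h : l.Perm l') :
    ∀ c : ExteriorAlgebra ℝ W, c * (l.map (ι ℝ)).prod = 0 → c * (l'.map (ι ℝ)).prod = 0 := by
  induction h with
  | nil => intro c hc; exact hc
  | cons x _ ih =>
    intro c hc
    simp only [List.map_cons, List.prod_cons] at hc ⊢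
    rw [← mul_assoc] at hc ⊢
    exact ih _ hc
  | swap x y l =>
    intro c hc
    simp only [List.map_cons, List.prod_cons] at hc ⊢
    have h1 : ι ℝ x * ι ℝ y = - (ι ℝ y * ι ℝ x) :=
      eq_neg_of_add_eq_zero_left (ι_add_mul_swap x y)
    rw [← mul_assoc (ι ℝ x), h1, neg_mul, mul_neg, mul_assoc, hc, neg_zero]
  | trans _ _ ih1 ih2 => intro c hc; exact ih2 c (ih1 c hc)

theorem bar_iff {n : ℕ} {W : Type} [AddCommGroup W] [Module ℝ W] (u : Fin n → W)
    (σ : Finset (Fin n)) (l : List (Fin n))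
    (hl : l.Nodup) (hσ : l.toFinset = σ) (c : ExteriorAlgebra ℝ W) :
    c * bar u σ = 0 ↔ c * (l.map (fun v => ι ℝ (u v))).prod = 0 := by
  have hp : (σ.sort (· ≤ ·)).Perm l := by
    apply List.perm_of_nodup_nodup_toFinset_eq (Finset.sort_nodup _ _) hl
    rw [hσ]; simp
  have hp' := hp.map u
  constructor
  · intro h
    have := perm_zero hp' c (by simpa [bar, List.map_map, Function.comp_def] using h)
    simpa [List.map_map, Function.comp_def] using this
  · intro h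
    have := perm_zero hp'.symm c (by simpa [List.map_map, Function.comp_def] using h)
    simpa [bar, List.map_map, Function.comp_def] using this

theorem preBd_null {n : ℕ} {W : Type} [AddCommGroup W] [Module ℝ W] (u : Fin n → W) :
    nullCh (bar u) ≤ (nullCh (bar u)).comap (preBd fun v => ι ℝ (u v)) := by
  intro c hc τ
  change (∑ x ∈ τᶜ, c (insert x τ) * ι ℝ (u x)) * bar u τ = 0
  rw [Finset.sum_mul]
  refine Finset.sum_eq_zero fun x hx => ?_
  have hx' : x ∉ τ := Finset.mem_compl.mp hx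
  have := (bar_iff u (insert x τ) (x :: τ.sort (· ≤ ·))
    (List.nodup_cons.mpr ⟨by simpa using hx', Finset.sort_nodup _ _⟩) (by simp)
    (c (insert x τ))).mp (hc _)
  simpa [bar, mul_assoc] using this

/-- `β_(k-1)` of the skeletal `r`-rigidity complex of the vectors `u v ∈ W` -/
noncomputable def bettiW {n : ℕ} {W : Type} [AddCommGroup W] [Module ℝ W]
    (Δ : Set (Finset (Fin n))) (r : ℕ) (u : Fin n → W) (k : ℕ) : ℕ :=
  qdim (nullCh (bar u)) (preBd fun v => ι ℝ (u v)) (preBd_null u)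
    (preCh Δ k (⋀[ℝ]^(r - k) W)) (preCh Δ (k + 1) (⋀[ℝ]^(r - (k + 1)) W))

/-- homogeneous coordinates `(x,1)` of a point `x` of `ℝ^d` -/
def hom {d : ℕ} (x : Fin d → ℝ) : Fin (d + 1) → ℝ := Fin.snoc x 1

/-- the Betti number `β_(k-1) (R_(d,r) (Δ; p))`, for `k < r` -/
noncomputable def betti {n d : ℕ} (Δ : Set (Finset (Fin n))) (r : ℕ) (p : Fin n → Fin d → ℝ)
    (k : ℕ) : ℕ :=
  bettiW Δ r (fun v => hom (p v)) k

/-- vertical projection: forget the last coordinate -/
def proj {d : ℕ} (x : Fin (d + 1) → ℝ) : Fin d → ℝ := fun i => x i.castSucc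

theorem exists_fn {N : ℕ} (i j k : Fin N) :
    ∃ L : ExteriorAlgebra ℝ (Fin N → ℝ) →ₗ[ℝ] ℝ,
      ∀ a b c, L (ι ℝ a * ι ℝ b * ι ℝ c) = m3 i j k a b c := by
  classical
  let π : (Fin N → ℝ) →ₗ[ℝ] (Fin 3 → ℝ) := LinearMap.funLeft ℝ ℝ ![i, j, k]
  let A : (Fin N → ℝ) [⋀^Fin 3]→ₗ[ℝ] ℝ := Matrix.detRowAlternating.compLinearMap π
  let F : ∀ m : ℕ, (Fin N → ℝ) [⋀^Fin m]→ₗ[ℝ] ℝ := Function.update 0 3 A
  refine ⟨liftAlternating F, fun a b c => ?_⟩
  have h1 : ι ℝ a * ι ℝ b * ι ℝ c = ιMulti ℝ 3 ![a, b, c] := by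
    simp [ιMulti_apply, mul_assoc]
  rw [h1, liftAlternating_apply_ιMulti]
  have h2 : F 3 = A := by simp [F]
  rw [h2]
  change Matrix.det (Matrix.of fun r s => π (![a, b, c] r) s) = _
  rw [Matrix.det_fin_three]
  simp [π, m3, LinearMap.funLeft_apply]

theorem wedge_zero {W : Type} [AddCommGroup W] [Module ℝ W] (x y : W) (s t : ℝ) :
    ι ℝ (s • x + t • y) * (ι ℝ x * ι ℝ y) = 0 := by
  have h1 : ι ℝ y * ι ℝ x = - (ι ℝ x * ι ℝ y) :=
    eq_neg_of_add_eq_zero_left (ι_add_mul_swap y x)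
  rw [map_add, map_smul, map_smul, add_mul, smul_mul_assoc, smul_mul_assoc, ← mul_assoc,
    ← mul_assoc, ι_sq_zero, h1, neg_mul, mul_assoc (ι ℝ x), ι_sq_zero]
  simp

def P : Fin 8 → Fin 3 → ℝ :=
  ![![0, 0, 0], ![2, 0, 0], ![2, 2, 1], ![0, 2, 0], ![1, -1, 0], ![3, 1, 0], ![1, 3, 0], ![-1, 1, 0]]

def K : Fin 8 → Fin 3 → ℝ :=
  ![![0, 0, 1], ![2, 0, 1], ![2, 2, 1], ![0, 2, 1], ![1, -1, 1], ![3, 1, 1],
    ![1, 3, 1], ![-1, 1, 1]]

theorem hom_P (v : Fin 8) : hom (P v) = H v := by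
  funext i
  fin_cases v <;> fin_cases i <;> rfl

theorem hom_Q (v : Fin 8) : hom (proj (P v)) = K v := by
  funext i
  fin_cases v <;> fin_cases i <;> rfl

def D : Set (Finset (Fin 8)) := {σ | ∃ j, σ ⊆ T j}

abbrev Ext (d : ℕ) : Type := ExteriorAlgebra ℝ (Fin (d + 1) → ℝ)

theorem bar_pair {n d : ℕ} (u : Fin n → Fin (d + 1) → ℝ) (x y : Fin n) (h : x ≠ y) (c : Ext d) :
    c * bar u {x, y} = 0 ↔ c * (ι ℝ (u x) * ι ℝ (u y)) = 0 := by
  rw [bar_iff u {x, y} [x, y] (by simp [h]) (by simp)]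
  simp

theorem bar_one {n d : ℕ} (u : Fin n → Fin (d + 1) → ℝ) (x : Fin n) :
    bar u {x} = ι ℝ (u x) := by
  simp [bar]

noncomputable abbrev pb {n d : ℕ} (u : Fin n → Fin (d + 1) → ℝ) := preBd fun v => ι ℝ (u v)

noncomputable abbrev nu {n d : ℕ} (u : Fin n → Fin (d + 1) → ℝ) := nullCh (bar u)

noncomputable abbrev pc (d r k : ℕ) := preCh D k (⋀[ℝ]^(r - k) (Fin (d + 1) → ℝ))

noncomputable def bd {n d : ℕ} (u : Fin n → Fin (d + 1) → ℝ) :=
  (nu u).mapQ (nu u) (pb u) (preBd_null u)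

noncomputable abbrev chains {d : ℕ} (u : Fin 8 → Fin (d + 1) → ℝ) (k : ℕ) :=
  (pc d 3 k).map (nu u).mkQ

theorem T_card : ∀ j, (T j).card = 3 := by decide

theorem edge_of_insert {σ : Finset (Fin 8)} {w : Fin 8} {j : Fin 4} (hw : w ∉ σ)
    (h : insert w σ = T j) : σ ∈ D ∧ σ.card = 2 := by
  refine ⟨⟨j, h ▸ Finset.subset_insert _ _⟩, ?_⟩
  have := T_card j
  rw [← h, Finset.card_insert_of_notMem hw] at this
  omega

theorem betti_P : bettiW D 3 H 2 = 0 := by
  have key : chains H 2 ⊓ LinearMap.ker (bd H) ≤ (chains H 3).map (bd H) := by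
    rintro z ⟨⟨f, hf, rfl⟩, hz⟩
    have hz' : pb H f ∈ nu H := by
      have : bd H ((nu H).mkQ f) = 0 := hz
      rwa [bd, Submodule.mkQ_apply, Submodule.mapQ_apply, Submodule.Quotient.mk_eq_zero] at this
    have hc : ∀ x y : Fin 8, ∃ c : Fin 4 → ℝ, f {x, y} = ι ℝ c := by
      intro x y
      by_cases h : ({x, y} : Finset (Fin 8)) ∈ D ∧ ({x, y} : Finset (Fin 8)).card = 2
      · have : f {x, y} ∈ (LinearMap.range (ι ℝ : (Fin 4 → ℝ) →ₗ[ℝ] _)) ^ 1 := (hf {x, y}).1 h
        rw [pow_one] at this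
        obtain ⟨c, hc⟩ := this
        exact ⟨c, hc.symm⟩
      · exact ⟨0, by rw [(hf {x, y}).2 h, map_zero]⟩
    choose c hc using hc
    have hs : ∀ x y, c x y = c y x := by
      intro x y
      rw [← ι_inj ℝ, ← hc, ← hc, Finset.pair_comm]
    have h0 : ∀ x y, ¬ adj x y → c x y = 0 := by
      intro x y h
      rw [← ι_eq_zero_iff (R := ℝ), ← hc]
      apply (hf {x, y}).2
      rintro ⟨h1, h2⟩
      apply h
      refine ⟨?_, h1⟩
      rintro rfl
      simp at h2
    have hv : ∀ y i j k, ∑ x, m3 i j k (c x y) (H x) (H y) = 0 := by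
      intro y i j k
      obtain ⟨L, hL⟩ := exists_fn i j k
      have h1 : (∑ x ∈ ({y} : Finset (Fin 8))ᶜ, f (insert x {y}) * ι ℝ (H x)) * bar H {y}
          = 0 := hz' {y}
      rw [bar_one, Finset.sum_mul] at h1
      have h2 := congrArg L h1
      rw [map_sum, map_zero] at h2
      simp only [hc, hL] at h2
      rw [← Finset.sum_compl_add_sum {y}, h2, Finset.sum_singleton, h0 y y (fun h => h.1 rfl)]
      simp [m3]
    obtain ⟨g, hg⟩ := LA c hs h0 hv
    let G : Finset (Fin 8) → Ext 3 := fun σ => ∑ j, if σ = T j then algebraMap ℝ _ (g j) else 0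
    have hG : G ∈ pc 3 3 3 := by
      intro σ
      refine ⟨fun _ => ?_, fun h => ?_⟩
      · refine Submodule.sum_mem _ fun j _ => ?_
        split_ifs
        · simp only [Nat.sub_self, ExteriorAlgebra.exteriorPower, pow_zero]
          exact Submodule.algebraMap_mem _
        · exact Submodule.zero_mem _
      · refine Finset.sum_eq_zero fun j _ => if_neg ?_
        rintro rfl
        exact h ⟨⟨j, subset_rfl⟩, T_card j⟩
    refine ⟨(nu H).mkQ G, ⟨G, hG, rfl⟩, ?_⟩
    rw [bd, Submodule.mkQ_apply, Submodule.mapQ_apply, Submodule.mkQ_apply, eq_comm,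
      Submodule.Quotient.eq]
    intro σ
    change (f σ - ∑ w ∈ σᶜ, G (insert w σ) * ι ℝ (H w)) * bar H σ = 0
    by_cases h : σ ∈ D ∧ σ.card = 2
    · obtain ⟨x, y, hxy, rfl⟩ : ∃ x y : Fin 8, x < y ∧ σ = {x, y} := by
        obtain ⟨x, y, hne, rfl⟩ := Finset.card_eq_two.mp h.2
        rcases lt_or_gt_of_ne hne with h1 | h1
        · exact ⟨x, y, h1, rfl⟩
        · exact ⟨y, x, h1, Finset.pair_comm _ _⟩
      have hex : ∀ x y : Fin 8, x < y → (∃ j, ({x, y} : Finset (Fin 8)) ⊆ T j) →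
          ∃ w j, w ∉ ({x, y} : Finset (Fin 8)) ∧ insert w {x, y} = T j ∧
            ∀ w' j', w' ∉ ({x, y} : Finset (Fin 8)) → insert w' {x, y} = T j' →
              w' = w ∧ j' = j := by decide +kernel
      obtain ⟨w, j, hw, hj, hu⟩ := hex x y hxy h.1
      have hsum : ∑ w' ∈ ({x, y} : Finset (Fin 8))ᶜ, G (insert w' {x, y}) * ι ℝ (H w')
          = ι ℝ (g j • H w) := by
        rw [Finset.sum_eq_single w]
        · have : G (insert w {x, y}) = algebraMap ℝ _ (g j) := by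
            simp only [G]
            rw [Finset.sum_eq_single j, if_pos hj]
            · intro j' _ hj'
              exact if_neg fun h' => hj' (hu w j' hw h').2
            · simp
          rw [this, map_smul, Algebra.smul_def]
        · intro w' hw' hne
          have : G (insert w' {x, y}) = 0 :=
            Finset.sum_eq_zero fun j' _ =>
              if_neg fun h' => hne (hu w' j' (Finset.mem_compl.mp hw') h').1
          rw [this, zero_mul]
        · intro h'
          exact absurd (Finset.mem_compl.mpr hw) h'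
      obtain ⟨s, t, hst⟩ := hg x y w j hxy hw hj
      rw [hsum, hc, ← map_sub, hst, bar_pair H x y hxy.ne]
      exact wedge_zero _ _ _ _
    · rw [(hf σ).2 h, Finset.sum_eq_zero, sub_zero, zero_mul]
      intro w hw
      have : G (insert w σ) = 0 :=
        Finset.sum_eq_zero fun j _ =>
          if_neg fun h' => h (edge_of_insert (Finset.mem_compl.mp hw) h')
      rw [this, zero_mul]
  have : ((chains H 3).map (bd H)).submoduleOf
      (chains H 2 ⊓ LinearMap.ker (bd H)) = ⊤ := by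
    rw [eq_top_iff]
    intro z _
    exact key z.2
  change Module.finrank ℝ (_ ⧸ ((chains H 3).map (bd H)).submoduleOf
      (chains H 2 ⊓ LinearMap.ker (bd H))) = 0
  rw [this]
  exact Module.finrank_zero_of_subsingleton

theorem finExt (d : ℕ) : Module.Finite ℝ (Ext d) :=
  Module.Finite.of_basis (Pi.basisFun ℝ (Fin (d + 1))).ExteriorAlgebra

noncomputable def cyc : Finset (Fin 8) → Ext 2 := fun σ =>
  if σ = {0, 1} ∨ σ = {0, 3} then ι ℝ (K 2) else if σ = {1, 2} ∨ σ = {2, 3} then ι ℝ (K 0) else 0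

theorem cyc_mem : cyc ∈ pc 2 3 2 := by
  intro σ
  refine ⟨fun _ => ?_, fun h => ?_⟩
  · change cyc σ ∈ (LinearMap.range (ι ℝ : (Fin 3 → ℝ) →ₗ[ℝ] _)) ^ 1
    rw [pow_one]
    unfold cyc
    split_ifs
    · exact ⟨_, rfl⟩
    · exact ⟨_, rfl⟩
    · exact Submodule.zero_mem _
  · unfold cyc
    rw [if_neg, if_neg]
    · rintro (rfl | rfl)
      · exact h ⟨⟨1, by decide⟩, by decide⟩
      · exact h ⟨⟨2, by decide⟩, by decide⟩
    · rintro (rfl | rfl)
      · exact h ⟨⟨0, by decide⟩, by decide⟩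
      · exact h ⟨⟨3, by decide⟩, by decide⟩

theorem cyc_null : pb K cyc ∈ nu K := by
  intro σ
  change (∑ w ∈ σᶜ, cyc (insert w σ) * ι ℝ (K w)) * bar K σ = 0
  by_cases h : σ.card = 1
  · obtain ⟨y, rfl⟩ := Finset.card_eq_one.mp h
    rw [bar_one]
    have hy : cyc (insert y {y}) = 0 := by
      unfold cyc
      rw [if_neg, if_neg] <;> revert y <;> decide
    have hsum : ∑ w ∈ ({y} : Finset (Fin 8))ᶜ, cyc (insert w {y}) * ι ℝ (K w)
        = ∑ w, cyc (insert w {y}) * ι ℝ (K w) := by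
      rw [← Finset.sum_compl_add_sum {y}, Finset.sum_singleton, hy, zero_mul, add_zero]
    rw [hsum, Fin.sum_univ_eight]
    have hK : ι ℝ (K 3) = ι ℝ (K 0) + ι ℝ (K 2) - ι ℝ (K 1) := by
      rw [← map_add, ← map_sub]
      congr 1
      funext i
      fin_cases i <;> simp [K]
    have h02 : ι ℝ (K 2) * ι ℝ (K 0) = - (ι ℝ (K 0) * ι ℝ (K 2)) :=
      eq_neg_of_add_eq_zero_left (ι_add_mul_swap _ _)
    have h00 := ι_sq_zero (R := ℝ) (K 0)
    have h22 := ι_sq_zero (R := ℝ) (K 2)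
    fin_cases y
    · simp +decide only [cyc, if_true, if_false, zero_mul, add_zero, zero_add]
      change (_ : Ext 2) * ι ℝ (K 0) = 0
      rw [← mul_add, hK]
      have : ι ℝ (K 1) + (ι ℝ (K 0) + ι ℝ (K 2) - ι ℝ (K 1)) = ι ℝ (K 0) + ι ℝ (K 2) := by abel
      rw [this, mul_add, h22, add_zero, mul_assoc, h00, mul_zero]
    · simp +decide only [cyc, if_true, if_false, zero_mul, add_zero, zero_add]
      rw [h02, neg_add_cancel, zero_mul]
    · simp +decide only [cyc, if_true, if_false, zero_mul, add_zero, zero_add]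
      change (_ : Ext 2) * ι ℝ (K 2) = 0
      rw [← mul_add, hK]
      have : ι ℝ (K 1) + (ι ℝ (K 0) + ι ℝ (K 2) - ι ℝ (K 1)) = ι ℝ (K 0) + ι ℝ (K 2) := by abel
      rw [this, mul_add, h00, zero_add, mul_assoc, h22, mul_zero]
    · simp +decide only [cyc, if_true, if_false, zero_mul, add_zero, zero_add]
      rw [h02, neg_add_cancel, zero_mul]
    all_goals simp +decide only [cyc, if_true, if_false, zero_mul, add_zero, zero_add]
  · rw [Finset.sum_eq_zero, zero_mul]
    intro w hw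
    have h2 : (insert w σ).card ≠ 2 := by
      rw [Finset.card_insert_of_notMem (Finset.mem_compl.mp hw)]
      omega
    rw [(cyc_mem _).2 (fun h' => h2 h'.2), zero_mul]

theorem betti_Q : 0 < bettiW D 3 K 2 := by
  have hz : (nu K).mkQ cyc ∈ chains K 2 ⊓ LinearMap.ker (bd K) := by
    refine ⟨⟨cyc, cyc_mem, rfl⟩, ?_⟩
    change bd K ((nu K).mkQ cyc) = 0
    rw [bd, Submodule.mkQ_apply, Submodule.mapQ_apply, Submodule.Quotient.mk_eq_zero]
    exact cyc_null
  have hn : (nu K).mkQ cyc ∉ (chains K 3).map (bd K) := by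
    rintro ⟨_, ⟨G, hG, rfl⟩, h⟩
    rw [bd, Submodule.mkQ_apply, Submodule.mapQ_apply, Submodule.mkQ_apply,
      Submodule.Quotient.eq] at h
    obtain ⟨g, hg⟩ : ∃ g : ℝ, G {0, 1, 4} = algebraMap ℝ _ g := by
      have : G {0, 1, 4} ∈ (LinearMap.range (ι ℝ : (Fin 3 → ℝ) →ₗ[ℝ] _)) ^ 0 :=
        (hG {0, 1, 4}).1 ⟨⟨0, by decide⟩, by decide⟩
      rw [pow_zero, Submodule.mem_one] at this
      obtain ⟨g, hg⟩ := this
      exact ⟨g, hg.symm⟩
    have hsum : ∀ (x y w : Fin 8), w ∉ ({x, y} : Finset (Fin 8)) →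
        insert w ({x, y} : Finset (Fin 8)) = {0, 1, 4} →
        (∀ w', w' ∉ ({x, y} : Finset (Fin 8)) → w' ≠ w →
          ¬ ∃ j, insert w' ({x, y} : Finset (Fin 8)) ⊆ T j) →
        pb K G {x, y} = g • ι ℝ (K w) := by
      intro x y w h1 h2 h3
      change ∑ w' ∈ ({x, y} : Finset (Fin 8))ᶜ, G (insert w' {x, y}) * ι ℝ (K w') = _
      rw [Finset.sum_eq_single w, h2, hg, Algebra.smul_def]
      · intro w' hw' hne
        rw [(hG _).2 (fun h' => h3 w' (Finset.mem_compl.mp hw') hne h'.1), zero_mul]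
      · intro h'
        exact absurd (Finset.mem_compl.mpr h1) h'
    obtain ⟨L, hL⟩ := exists_fn (0 : Fin 3) 1 2
    have e1 : (pb K G {0, 4} - cyc {0, 4}) * bar K {0, 4} = 0 := h {0, 4}
    have e2 : (pb K G {0, 1} - cyc {0, 1}) * bar K {0, 1} = 0 := h {0, 1}
    rw [hsum 0 4 1 (by decide) (by decide) (by decide), bar_pair K 0 4 (by decide)] at e1
    rw [hsum 0 1 4 (by decide) (by decide) (by decide), bar_pair K 0 1 (by decide)] at e2
    have c1 : cyc {0, 4} = 0 := by simp +decide only [cyc, if_false]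
    have c2 : cyc {0, 1} = ι ℝ (K 2) := by simp +decide only [cyc, if_true]
    simp only [c1, c2, sub_zero, sub_mul, smul_mul_assoc, ← mul_assoc] at e1 e2
    have f1 := congrArg L e1
    have f2 := congrArg L e2
    simp only [map_sub, map_smul, hL, map_zero, smul_eq_mul] at f1 f2
    simp [m3, K] at f1 f2
    rw [f1] at f2
    norm_num at f2
  haveI := finExt 2
  change 0 < Module.finrank ℝ (_ ⧸ ((chains K 3).map (bd K)).submoduleOf
      (chains K 2 ⊓ LinearMap.ker (bd K)))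
  rw [Module.finrank_pos_iff, Submodule.Quotient.nontrivial_iff]
  intro htop
  have : (⟨_, hz⟩ : ↥(chains K 2 ⊓ LinearMap.ker (bd K))) ∈
      ((chains K 3).map (bd K)).submoduleOf
        (chains K 2 ⊓ LinearMap.ker (bd K)) := by
    rw [htop]; trivial
  exact hn this

theorem aff_of {n d : ℕ} (p : Fin n → Fin d → ℝ) (σ : Finset (Fin n))
    (h : ∀ w : Fin n → ℝ, ∑ v ∈ σ, w v = 0 → ∑ v ∈ σ, w v • p v = 0 → ∀ v ∈ σ, w v = 0) :
    AffineIndependent ℝ (fun v : σ => p v) := by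
  classical
  rw [affineIndependent_iff_of_fintype]
  intro w h1 h2 i
  rw [Finset.weightedVSub_eq_linear_combination _ h1] at h2
  have := h (fun v => if hv : v ∈ σ then w ⟨v, hv⟩ else 0) (by
    rw [← h1, ← Finset.sum_coe_sort]
    exact Finset.sum_congr rfl fun v _ => by simp) (by
    rw [← h2, ← Finset.sum_coe_sort]
    exact Finset.sum_congr rfl fun v _ => by simp) i i.2
  simpa using this

theorem aff_Q (σ : Finset (Fin 8)) (hσ : σ ∈ D) :
    AffineIndependent ℝ (fun v : σ => proj (P v)) := by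
  obtain ⟨j, hj⟩ := hσ
  have hT : AffineIndependent ℝ (fun v : T j => proj (P v)) := by
    apply aff_of (fun v => proj (P v))
    intro w h1 h2 v hv
    have a0 := congrFun h2 0
    have a1 := congrFun h2 1
    fin_cases j <;> simp [T, proj, P] at h1 a0 a1 hv <;>
      rcases hv with rfl | rfl | rfl <;> linarith
  exact hT.comp_embedding ⟨fun v : σ => ⟨v.1, hj v.2⟩, fun a b h => Subtype.ext (by
    simpa using h)⟩

theorem aff_P (σ : Finset (Fin 8)) (hσ : σ ∈ D) :
    AffineIndependent ℝ (fun v : σ => P v) :=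
  AffineIndependent.of_comp
    (LinearMap.funLeft ℝ ℝ (Fin.castSucc : Fin 2 → Fin 3)).toAffineMap (aff_Q σ hσ)

theorem result : ∃ (n : ℕ) (Δ : Set (Finset (Fin n))) (p : Fin n → Fin 3 → ℝ),
    ∅ ∈ Δ ∧ (∀ σ ∈ Δ, ∀ τ, τ ⊆ σ → τ ∈ Δ) ∧ (∀ v, {v} ∈ Δ) ∧
    (∀ σ ∈ Δ, ∃ t ∈ Δ, σ ⊆ t ∧ t.card = 3) ∧
    (∀ σ ∈ Δ, AffineIndependent ℝ (fun v : σ => p v)) ∧
    (∀ σ ∈ Δ, AffineIndependent ℝ (fun v : σ => proj (p v))) ∧
    betti Δ 3 p 2 < betti Δ 3 (fun v => proj (p v)) 2 := by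
  refine ⟨8, D, P, ⟨0, Finset.empty_subset _⟩, ?_, ?_, ?_, aff_P, aff_Q, ?_⟩
  · rintro σ ⟨j, hj⟩ τ hτ
    exact ⟨j, hτ.trans hj⟩
  · have : ∀ v : Fin 8, ∃ j, ({v} : Finset (Fin 8)) ⊆ T j := by decide
    exact this
  · rintro σ ⟨j, hj⟩
    exact ⟨T j, ⟨j, subset_rfl⟩, hj, T_card j⟩
  · simp only [betti, hom_P, hom_Q]
    rw [betti_P]
    exact betti_Q

end Pool.Agent.Results.MP_7bb607_co.Counter
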